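import Mathlib

/-!
# Corona plus ker is at most twice the independence number plus the number of odd cycles
-/

set_option autoImplicit false

open Finset

namespace Pool.Agent.Results.MP_7e5e3f_co.CoronaKer

variable {V : Type*}

/-- `S` is a maximum independent set of `G`. -/
def IsMaxIndep (G : SimpleGraph V) (S : Finset V) : Prop :=
  G.IsIndepSet (S : Set V) ∧ ∀ T : Finset V, G.IsIndepSet (T : Set V) → T.card ≤ S.card

/-- `corona(G)`: the union of all maximum independent sets. -/
def corona (G : SimpleGraph V) : Set V := {v | ∃ S, IsMaxIndep G S ∧ v ∈ S}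

/-- `N(X)`: the set of the vertices adjacent to at least one vertex of `X`. -/
def nbhd (G : SimpleGraph V) (X : Finset V) : Set V := {w | ∃ x ∈ X, G.Adj x w}

/-- `d_G(X) = |X| - |N(X)|`. -/
noncomputable def dif (G : SimpleGraph V) (X : Finset V) : ℤ := (X.card : ℤ) - ((nbhd G X).ncard : ℤ)

/-- `X` is a critical independent set: an independent set maximizing `d_G` among the
independent sets. -/
def IsCritical (G : SimpleGraph V) (X : Finset V) : Prop :=
  G.IsIndepSet (X : Set V) ∧ ∀ Y : Finset V, G.IsIndepSet (Y : Set V) → dif G Y ≤ dif G X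

/-- `ker(G)`: the intersection of all critical independent sets. -/
def ker (G : SimpleGraph V) : Set V := {v | ∀ X, IsCritical G X → v ∈ X}

/-- The edge sets of the odd cycles of `G`. -/
def oddCycles (G : SimpleGraph V) : Set (Set (Sym2 V)) :=
  {c | ∃ (v : V) (w : G.Walk v v), w.IsCycle ∧ Odd w.length ∧ c = {e | e ∈ w.edges}}

section walks

variable {G : SimpleGraph V}

theorem split_walk {u v : V} (p : G.Walk u v) : p.IsPath ∨
    ∃ (x : V) (p₁ : G.Walk u x) (q : G.Walk x x) (p₂ : G.Walk x v),
      0 < q.length ∧ p = p₁.append (q.append p₂) := by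
  classical
  induction p with
  | nil => left; exact SimpleGraph.Walk.IsPath.nil
  | @cons a b c h p ih =>
    rcases ih with hp | ⟨x, p₁, q, p₂, hq, he⟩
    · by_cases ha : a ∈ p.support
      · right
        refine ⟨a, SimpleGraph.Walk.nil, SimpleGraph.Walk.cons h (p.takeUntil a ha),
          p.dropUntil a ha, ?_, ?_⟩
        · rw [SimpleGraph.Walk.length_cons]; omega
        · rw [SimpleGraph.Walk.nil_append, SimpleGraph.Walk.cons_append,
            SimpleGraph.Walk.take_spec]
      · left
        exact (SimpleGraph.Walk.cons_isPath_iff h p).2 ⟨hp, ha⟩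
    · right
      refine ⟨x, SimpleGraph.Walk.cons h p₁, q, p₂, hq, ?_⟩
      rw [SimpleGraph.Walk.cons_append, he]

theorem odd_cycle_of_loop (n : ℕ) : ∀ (v : V) (w : G.Walk v v), w.length = n → Odd n →
    ∃ (u : V) (c : G.Walk u u), c.IsCycle ∧ Odd c.length ∧ ∀ x ∈ c.support, x ∈ w.support := by
  induction n using Nat.strong_induction_on with
  | _ n ih =>
  intro v w hn ho
  cases w with
  | nil =>
    rw [SimpleGraph.Walk.length_nil] at hn
    subst hn
    exact absurd ho (by decide)
  | @cons _ b _ h p =>
    rw [SimpleGraph.Walk.length_cons] at hn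
    rcases split_walk p with hp | ⟨x, p₁, q, p₂, hq, he⟩
    · by_cases hmem : s(v, b) ∈ p.edges
      · exfalso
        -- a path from `b` to `v` which uses the edge `vb` has length one
        have h1 : p.length = 1 := by
          cases p with
          | nil => simp at hmem
          | @cons _ c _ h' p' =>
            rw [SimpleGraph.Walk.edges_cons, List.mem_cons] at hmem
            rw [SimpleGraph.Walk.cons_isPath_iff] at hp
            rcases hmem with hmem | hmem
            · rw [Sym2.eq_swap, Sym2.eq_iff] at hmem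
              rcases hmem with ⟨-, hc⟩ | ⟨h2, h3⟩
              · subst hc
                have := hp.1
                rw [SimpleGraph.Walk.isPath_iff_nil] at this
                rw [SimpleGraph.Walk.length_cons, SimpleGraph.Walk.length_eq_zero_iff.2 this]
              · exact absurd h3 h.ne
            · exact absurd (SimpleGraph.Walk.snd_mem_support_of_mem_edges p' hmem) hp.2
        rw [h1] at hn
        subst hn
        exact absurd ho (by decide)
      · exact ⟨v, SimpleGraph.Walk.cons h p, (SimpleGraph.Walk.cons_isCycle_iff p h).2 ⟨hp, hmem⟩,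
          by rw [SimpleGraph.Walk.length_cons, hn]; exact ho, fun x hx => hx⟩
    · have hlen : p.length = p₁.length + (q.length + p₂.length) := by
        rw [he, SimpleGraph.Walk.length_append, SimpleGraph.Walk.length_append]
      rcases Nat.even_or_odd q.length with hqe | hqo
      · obtain ⟨u, c, hc, hco, hcs⟩ := ih (n - q.length) (by omega) v
          (SimpleGraph.Walk.cons h (p₁.append p₂))
          (by rw [SimpleGraph.Walk.length_cons, SimpleGraph.Walk.length_append]; omega)
          (Nat.Odd.sub_even (by omega) ho hqe)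
        refine ⟨u, c, hc, hco, fun y hy => ?_⟩
        have := hcs y hy
        rw [SimpleGraph.Walk.support_cons, List.mem_cons] at this ⊢
        rcases this with h1 | h1
        · exact Or.inl h1
        · right
          rw [he]
          rw [SimpleGraph.Walk.mem_support_append_iff] at h1 ⊢
          rcases h1 with h1 | h1
          · exact Or.inl h1
          · right
            rw [SimpleGraph.Walk.mem_support_append_iff]
            exact Or.inr h1
      · obtain ⟨u, c, hc, hco, hcs⟩ := ih q.length (by omega) x q rfl hqo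
        refine ⟨u, c, hc, hco, fun y hy => ?_⟩
        have := hcs y hy
        rw [SimpleGraph.Walk.support_cons, List.mem_cons]
        right
        rw [he, SimpleGraph.Walk.mem_support_append_iff, SimpleGraph.Walk.mem_support_append_iff]
        exact Or.inr (Or.inl this)

end walks

section main

variable [Finite V] (G : SimpleGraph V)

/-- the odd cycles inside a set -/
def oddIn (S : Finset V) : Set (Set (Sym2 V)) :=
  {c | ∃ (v : V) (w : G.Walk v v), w.IsCycle ∧ Odd w.length ∧ c = {e | e ∈ w.edges} ∧
    ∀ x ∈ w.support, x ∈ S}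

theorem two_alpha_add_cycles (m : ℕ) : ∀ S : Finset V, S.card = m →
    ∃ J : Finset V, J ⊆ S ∧ G.IsIndepSet (J : Set V) ∧ S.card ≤ 2 * J.card + (oddIn G S).ncard := by
  classical
  induction m using Nat.strong_induction_on with
  | _ m ih =>
  intro S hS
  by_cases hc : ∃ (v : V) (w : G.Walk v v), w.IsCycle ∧ Odd w.length ∧ ∀ x ∈ w.support, x ∈ S
  · obtain ⟨v, w, hw, ho, hs⟩ := hc
    have hv : v ∈ S := hs v w.start_mem_support
    have hpos : 0 < S.card := card_pos.2 ⟨v, hv⟩
    obtain ⟨J, hJ, hJi, hJc⟩ := ih (S.erase v).card (by rw [card_erase_of_mem hv]; omega)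
      (S.erase v) rfl
    refine ⟨J, hJ.trans (erase_subset v S), hJi, ?_⟩
    have hlt : (oddIn G (S.erase v)).ncard < (oddIn G S).ncard := by
      apply Set.ncard_lt_ncard _ (Set.toFinite _)
      refine ⟨?_, ?_⟩
      · rintro c ⟨u, w', h1, h2, h3, h4⟩
        exact ⟨u, w', h1, h2, h3, fun x hx => mem_of_mem_erase (h4 x hx)⟩
      · intro hsub
        have h0 : {e | e ∈ w.edges} ∈ oddIn G S := ⟨v, w, hw, ho, rfl, hs⟩
        obtain ⟨u, w', h1, h2, h3, h4⟩ := hsub h0
        -- an edge at `v`
        cases w with
        | nil => simp at ho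
        | @cons _ b _ h p =>
          have he : s(v, b) ∈ {e | e ∈ (SimpleGraph.Walk.cons h p).edges} := by
            simp
          rw [h3] at he
          have := h4 v (SimpleGraph.Walk.fst_mem_support_of_mem_edges w' he)
          exact absurd rfl (ne_of_mem_erase this)
    rw [card_erase_of_mem hv] at hJc
    omega
  · push Not at hc
    have hcol : (G.induce (S : Set V)).Colorable 2 := by
      rw [SimpleGraph.two_colorable_iff_forall_loop_even]
      intro u w
      by_contra hodd
      rw [Nat.not_even_iff_odd] at hodd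
      obtain ⟨u', c, hcc, hco, -⟩ := odd_cycle_of_loop w.length u w rfl hodd
      have hinj : Function.Injective (SimpleGraph.Embedding.induce (S : Set V) (G := G)).toHom :=
        (SimpleGraph.Embedding.induce (S : Set V) (G := G)).injective
      obtain ⟨x, hx, hxS⟩ := hc _ (c.map (SimpleGraph.Embedding.induce (S : Set V)).toHom)
        (hcc.map hinj)
        (by rw [SimpleGraph.Walk.length_map]; exact hco)
      rw [SimpleGraph.Walk.support_map, List.mem_map] at hx
      obtain ⟨y, -, rfl⟩ := hx
      exact hxS y.2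
    obtain ⟨f⟩ := hcol
    let J : Fin 2 → Finset V := fun i => S.attach.filter (fun x => f x = i) |>.map
      (Function.Embedding.subtype _)
    have hJS : ∀ i, J i ⊆ S := by
      intro i x hx
      simp only [J, mem_map, mem_filter, Function.Embedding.subtype_apply]
        at hx
      obtain ⟨y, -, rfl⟩ := hx
      exact y.2
    have hJi : ∀ i, G.IsIndepSet (J i : Set V) := by
      intro i a ha b hb hab hadj
      simp only [J, coe_map, Set.mem_image, coe_filter, Set.mem_ofPred_eq,
        Function.Embedding.subtype_apply] at ha hb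
      obtain ⟨a, ha, rfl⟩ := ha
      obtain ⟨b, hb, rfl⟩ := hb
      have : (G.induce (S : Set V)).Adj a b := hadj
      exact f.valid this (ha.2.trans hb.2.symm)
    have hsum : S.card = (J 0).card + (J 1).card := by
      simp only [J, card_map]
      rw [← card_union_of_disjoint]
      · rw [← filter_or, filter_true_of_mem, card_attach]
        intro x _
        have : ∀ i : Fin 2, i = 0 ∨ i = 1 := by decide
        exact this _
      · rw [disjoint_filter]
        intro x _ h h'
        rw [h] at h'
        exact absurd h' (by decide)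
    rcases le_total (J 0).card (J 1).card with h | h
    · exact ⟨J 1, hJS 1, hJi 1, by omega⟩
    · exact ⟨J 0, hJS 0, hJi 0, by omega⟩

/-- the intersection of a critical independent set and a maximum independent set is critical -/
theorem critical_inter (I J : Finset V) [DecidableEq V] (hI : IsCritical G I)
    (hJ : IsMaxIndep G J) : IsCritical G (I ∩ J) := by
  classical
  refine ⟨fun a ha b hb => hI.1 (mem_of_mem_inter_left ha) (mem_of_mem_inter_left hb), ?_⟩
  intro Y hY
  refine (hI.2 Y hY).trans ?_
  -- exchange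
  have h1 : (I \ J).card ≤ (J.filter fun y => ∃ x ∈ I \ J, G.Adj x y).card := by
    have hind : G.IsIndepSet (((J.filter fun y => ¬ ∃ x ∈ I \ J, G.Adj x y) ∪ (I \ J) :
        Finset V) : Set V) := by
      intro a ha b hb hab hadj
      rw [mem_coe, mem_union, mem_filter] at ha hb
      rcases ha with ha | ha <;> rcases hb with hb | hb
      · exact hJ.1 (mem_coe.2 ha.1) (mem_coe.2 hb.1) hab hadj
      · exact ha.2 ⟨b, hb, hadj.symm⟩
      · exact hb.2 ⟨a, ha, hadj⟩
      · exact hI.1 (mem_coe.2 (mem_sdiff.1 ha).1) (mem_coe.2 (mem_sdiff.1 hb).1) hab hadj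
    have h2 := hJ.2 _ hind
    rw [card_union_of_disjoint] at h2
    · have h3 := card_filter_add_card_filter_not (s := J) (fun y => ∃ x ∈ I \ J, G.Adj x y)
      omega
    · rw [disjoint_left]
      intro a ha ha'
      exact (mem_sdiff.1 ha').2 (mem_filter.1 ha).1
  have h4 : (nbhd G (I ∩ J)).ncard + (J.filter fun y => ∃ x ∈ I \ J, G.Adj x y).card ≤
      (nbhd G I).ncard := by
    rw [← Set.ncard_coe_finset, ← Set.ncard_union_eq _ (Set.toFinite _) (Set.toFinite _)]
    · apply Set.ncard_le_ncard _ (Set.toFinite _)
      rintro y (⟨x, hx, hxy⟩ | hy)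
      · exact ⟨x, mem_of_mem_inter_left hx, hxy⟩
      · obtain ⟨-, x, hx, hxy⟩ := mem_filter.1 (mem_coe.1 hy)
        exact ⟨x, (mem_sdiff.1 hx).1, hxy⟩
    · rw [Set.disjoint_left]
      rintro y ⟨x, hx, hxy⟩ hy
      have hyJ := (mem_filter.1 (mem_coe.1 hy)).1
      exact hJ.1 (mem_coe.2 (mem_of_mem_inter_right hx)) (mem_coe.2 hyJ) hxy.ne hxy
  have h5 : (I ∩ J).card + (I \ J).card = I.card := card_inter_add_card_sdiff I J
  unfold dif
  omega

theorem exists_critical : ∃ I : Finset V, IsCritical G I := by
  classical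
  have := Fintype.ofFinite V
  obtain ⟨I, hI, hmax⟩ := exists_max_image
    ((univ : Finset (Finset V)).filter fun X : Finset V => G.IsIndepSet (X : Set V)) (dif G)
    ⟨∅, by simp⟩
  exact ⟨I, (mem_filter.1 hI).2, fun Y hY => hmax Y (by simp [hY])⟩

/-- `ker(G)` is contained in every maximum independent set -/
theorem ker_subset (J : Finset V) (hJ : IsMaxIndep G J) : ker G ⊆ (J : Set V) := by
  classical
  intro v hv
  obtain ⟨I, hI⟩ := exists_critical G
  exact mem_coe.2 (mem_of_mem_inter_right (hv _ (critical_inter G I J hI hJ)))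

end main

/-- For every finite graph `G`: `|corona(G)| + |ker(G)| ≤ 2 α(G) + k`, where `k` is the number of
the odd cycles of `G`. -/
theorem result (V : Type*) [Finite V] (G : SimpleGraph V) :
    (corona G).ncard + (ker G).ncard ≤ 2 * G.indepNum + (oddCycles G).ncard := by
  classical
  have := Fintype.ofFinite V
  obtain ⟨I, hI⟩ := exists_critical G
  have hkerI : ker G ⊆ (I : Set V) := fun v hv => mem_coe.2 (hv I hI)
  -- `A`: the part of the corona in `N(I)`
  let A : Finset V := univ.filter fun y => y ∈ corona G ∧ ∃ x ∈ I, G.Adj x y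
  let B : Finset V := I.filter fun x => ∃ y ∈ A, G.Adj x y
  let C : Finset V := univ.filter fun y => y ∉ I ∧ ¬ ∃ x ∈ I, G.Adj x y
  have hAB : A.card ≤ B.card := by
    have h1 := hI.2 (I \ B) (fun a ha b hb =>
      hI.1 (mem_coe.2 (mem_sdiff.1 (mem_coe.1 ha)).1) (mem_coe.2 (mem_sdiff.1 (mem_coe.1 hb)).1))
    have h2 : (nbhd G (I \ B)).ncard + A.card ≤ (nbhd G I).ncard := by
      rw [← Set.ncard_coe_finset, ← Set.ncard_union_eq _ (Set.toFinite _) (Set.toFinite _)]
      · apply Set.ncard_le_ncard _ (Set.toFinite _)
        rintro y (⟨x, hx, hxy⟩ | hy)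
        · exact ⟨x, (mem_sdiff.1 hx).1, hxy⟩
        · exact (mem_filter.1 (mem_coe.1 hy)).2.2
      · rw [Set.disjoint_left]
        rintro y ⟨x, hx, hxy⟩ hy
        exact (mem_sdiff.1 hx).2 (mem_filter.2 ⟨(mem_sdiff.1 hx).1, y, mem_coe.1 hy, hxy⟩)
    have h3 : (I \ B).card + B.card = I.card := card_sdiff_add_card_eq_card (filter_subset _ _)
    unfold dif at h1
    omega
  have hBker : B.card + (ker G).ncard ≤ I.card := by
    rw [← Set.ncard_coe_finset, ← Set.ncard_coe_finset I,
      ← Set.ncard_union_eq _ (Set.toFinite _) (Set.toFinite _)]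
    · apply Set.ncard_le_ncard _ (Set.toFinite _)
      rintro x (hx | hx)
      · exact mem_coe.2 (mem_filter.1 (mem_coe.1 hx)).1
      · exact hkerI hx
    · rw [Set.disjoint_left]
      intro x hx hxk
      obtain ⟨-, y, hy, hxy⟩ := mem_filter.1 (mem_coe.1 hx)
      obtain ⟨J, hJ, hyJ⟩ := (mem_filter.1 hy).2.1
      exact hJ.1 (ker_subset G J hJ hxk) (mem_coe.2 hyJ) hxy.ne hxy
  have hcor : (corona G).ncard ≤ I.card + A.card + C.card := by
    have h1 : corona G ⊆ ((I ∪ A ∪ C : Finset V) : Set V) := by
      intro v hv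
      rw [mem_coe, mem_union, mem_union]
      by_cases h1 : v ∈ I
      · exact Or.inl (Or.inl h1)
      · by_cases h2 : ∃ x ∈ I, G.Adj x v
        · exact Or.inl (Or.inr (mem_filter.2 ⟨mem_univ _, hv, h2⟩))
        · exact Or.inr (mem_filter.2 ⟨mem_univ _, h1, h2⟩)
    refine (Set.ncard_le_ncard h1 (Set.toFinite _)).trans ?_
    rw [Set.ncard_coe_finset]
    exact (card_union_le _ _).trans (Nat.add_le_add_right (card_union_le _ _) _)
  obtain ⟨J, hJC, hJi, hJc⟩ := two_alpha_add_cycles G C.card C rfl
  have hα : I.card + J.card ≤ G.indepNum := by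
    have hdis : Disjoint I J := by
      rw [disjoint_left]
      intro a ha ha'
      exact (mem_filter.1 (hJC ha')).2.1 ha
    rw [← card_union_of_disjoint hdis]
    apply SimpleGraph.IsIndepSet.card_le_indepNum
    intro a ha b hb hab hadj
    rw [mem_coe, mem_union] at ha hb
    rcases ha with ha | ha <;> rcases hb with hb | hb
    · exact hI.1 (mem_coe.2 ha) (mem_coe.2 hb) hab hadj
    · exact (mem_filter.1 (hJC hb)).2.2 ⟨a, ha, hadj⟩
    · exact (mem_filter.1 (hJC ha)).2.2 ⟨b, hb, hadj.symm⟩
    · exact hJi (mem_coe.2 ha) (mem_coe.2 hb) hab hadj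
  have hodd : (oddIn G C).ncard ≤ (oddCycles G).ncard := by
    apply Set.ncard_le_ncard _ (Set.toFinite _)
    rintro c ⟨v, w, h1, h2, h3, -⟩
    exact ⟨v, w, h1, h2, h3⟩
  omega

end Pool.Agent.Results.MP_7e5e3f_co.CoronaKer
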